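import Mathlib
import Pool.Agent.Q2.CS2.Stm

set_option autoImplicit false

open Q2.CS2

namespace Pool.Agent.Q214.CS2

/-- JOB 1 -/
theorem j1 : S_1 := by
  intro X D _ π H
  obtain ⟨H1, H2, H3, H4⟩ := H
  have ha : ∀ x h, (Set.ncard {y | π x y = h} : ℝ) = n π h := by
    intro x h
    obtain ⟨g, hg, hx, -⟩ := H1 x x default default (H2 x default)
    have e : {y | π default y = h} = g '' {y | π x y = h} := by
      ext y
      constructor
      · intro hy
        refine ⟨g.symm y, ?_, g.apply_symm_apply y⟩
        change π x (g.symm y) = h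
        rw [← hg, hx, g.apply_symm_apply]
        exact hy
      · rintro ⟨z, hz, rfl⟩
        change π default (g z) = h
        rw [← hx, hg]
        exact hz
    unfold n
    rw [e, Set.ncard_image_of_injective _ g.injective]
  have hne : ∀ h, ∃ y, π default y = h := by
    intro h
    obtain ⟨a, b, hab⟩ := H3 h
    obtain ⟨g, hg, hx, -⟩ := H1 a a default default (H2 a default)
    exact ⟨g b, by rw [← hx, hg, hab]⟩
  refine ⟨ha, ?_, ?_, ?_⟩
  · intro h
    obtain ⟨y, hy⟩ := hne h
    unfold n
    have h1 : 0 < Set.ncard {y | π default y = h} :=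
      (Set.ncard_pos (H4 default h)).mpr ⟨y, hy⟩
    exact_mod_cast h1
  · intro h
    exact Classical.epsilon_spec (hne h)
  · intro x y hxy
    obtain ⟨g, hg, hx, hy⟩ := H1 x y x x hxy
    exact g.injective (hx.trans hy.symm)

/-- JOB 4 -/
theorem j4 (_h1 : S_1) (h2 : S_2) (h3 : S_3) : S_4 := by
  classical
  intro X D _ π H
  obtain ⟨a2, -, -, -⟩ := h2 X D π H
  obtain ⟨-, -, k3, k4, k5, -, -⟩ := h3 X D π H
  have c1 : ∀ h, π default (pt π h) = h := (_h1 X D π H).2.2.1
  obtain ⟨-, -, -, H4⟩ := H
  have nn : ∀ h, 0 ≤ n π h := fun h => Nat.cast_nonneg _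
  have tn : ∀ x y h₁ h₂, 0 ≤ tr π x y h₁ h₂ := fun x y h₁ h₂ => Nat.cast_nonneg _
  have cn : ∀ x y z, 0 ≤ c π x y z := by
    intro x y z
    unfold c
    exact mul_nonneg (mul_nonneg (mul_nonneg (nn z) (inv_nonneg.mpr (nn x)))
      (inv_nonneg.mpr (nn y))) (tn _ _ _ _)
  have main : ∀ h₁ h₂, ∃ B : Finset X, (∀ h, c π h₁ h₂ h ≠ 0 → h ∈ B.image (π default)) ∧
      ∑ h ∈ B.image (π default), c π h₁ h₂ h = 1 := by
    intro h₁ h₂
    let T : X → ℝ := fun y => (n π h₁)⁻¹ * (n π h₂)⁻¹ * tr π default y h₁ h₂
    let A : Finset X := (H4 default h₁).toFinset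
    let B : Finset X := A.biUnion fun v => (H4 v h₂).toFinset
    have mA : ∀ v, v ∈ A ↔ π default v = h₁ := fun v => by
      simp only [A, Set.Finite.mem_toFinset]; rfl
    have mB : ∀ y, y ∈ B ↔ ∃ v, π default v = h₁ ∧ π v y = h₂ := fun y => by
      simp only [B, Finset.mem_biUnion, mA, Set.Finite.mem_toFinset]; rfl
    have hc : ∀ h, c π h₁ h₂ h = n π h * T (pt π h) := by
      intro h
      simp only [c, T]
      ring
    have hT : ∀ y, T y = T (pt π (π default y)) := by
      intro y
      simp only [T]
      rw [a2 default y h₁ h₂]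
    have hTB : ∀ y, y ∉ B → T y = 0 := by
      intro y hy
      have e : {v | π default v = h₁ ∧ π v y = h₂} = ∅ := by
        ext v
        constructor
        · intro hv
          exact (hy ((mB y).mpr ⟨v, hv⟩)).elim
        · intro hv; exact hv.elim
      simp only [T, tr]
      rw [e, Set.ncard_empty]
      simp
    refine ⟨B, ?_, ?_⟩
    · intro h hh
      rw [hc] at hh
      have h5 : T (pt π h) ≠ 0 := right_ne_zero_of_mul hh
      have h6 : pt π h ∈ B := by
        by_contra hcon
        exact h5 (hTB _ hcon)
      exact Finset.mem_image.mpr ⟨pt π h, h6, c1 h⟩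
    · have e1 : ∀ h ∈ B.image (π default), c π h₁ h₂ h =
          ∑ y ∈ B.filter (fun y => π default y = h), T y := by
        intro h _
        rw [hc]
        have hC : ∀ y ∈ (H4 default h).toFinset, T (pt π h) = T y := by
          intro y hy
          have hy' : π default y = h := by
            rw [Set.Finite.mem_toFinset] at hy; exact hy
          rw [hT y, hy']
        have hn : n π h = ((H4 default h).toFinset.card : ℝ) := by
          unfold n
          rw [Set.ncard_eq_toFinset_card _ (H4 default h)]
        rw [hn, ← nsmul_eq_mul, ← Finset.sum_const, Finset.sum_congr rfl hC]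
        symm
        apply Finset.sum_subset
        · intro y hy
          rw [Finset.mem_filter] at hy
          rw [Set.Finite.mem_toFinset]
          exact hy.2
        · intro y hy hy2
          apply hTB
          intro hB
          apply hy2
          rw [Set.Finite.mem_toFinset] at hy
          exact Finset.mem_filter.mpr ⟨hB, hy⟩
      rw [Finset.sum_congr rfl e1,
        Finset.sum_fiberwise_of_maps_to (fun y hy => Finset.mem_image_of_mem (π default) hy) T]
      have e2 : ∀ y ∈ B, T y = ∑ v ∈ A, K π default h₁ v * K π v h₂ y := by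
        intro y _
        change (n π h₁)⁻¹ * (n π h₂)⁻¹ * tr π default y h₁ h₂ = _
        rw [← k5 h₁ h₂ default y]
        apply finsum_eq_sum_of_support_subset
        intro v hv
        have h7 : K π default h₁ v ≠ 0 := left_ne_zero_of_mul hv
        exact (mA v).mpr ((k4 default h₁ v).mp h7)
      rw [Finset.sum_congr rfl e2, Finset.sum_comm]
      have e3 : ∀ v ∈ A, ∑ y ∈ B, K π default h₁ v * K π v h₂ y = K π default h₁ v := by
        intro v hv
        rw [← Finset.mul_sum]
        have h8 : ∑ y ∈ B, K π v h₂ y = ∑ᶠ y, K π v h₂ y := by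
          symm
          apply finsum_eq_sum_of_support_subset
          intro y hy
          have h9 := (k4 v h₂ y).mp hy
          exact (mB y).mpr ⟨v, (mA v).mp hv, h9⟩
        rw [h8, k3, mul_one]
      rw [Finset.sum_congr rfl e3, ← k3 default h₁]
      symm
      apply finsum_eq_sum_of_support_subset
      intro v hv
      exact (mA v).mpr ((k4 default h₁ v).mp hv)
  refine ⟨cn, ?_, ?_⟩
  · intro x y
    obtain ⟨B, hB, -⟩ := main x y
    exact (B.image (π default)).finite_toSet.subset fun h hh => hB h hh
  · intro x y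
    obtain ⟨B, hB, hs⟩ := main x y
    rw [← hs]
    exact finsum_eq_sum_of_support_subset _ fun h hh => hB h hh

end Pool.Agent.Q214.CS2
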